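import Pool.Agent.H5.CAS

namespace Pool.Agent.Results.MP_466bd8_al.No

open Pool.Agent.H5.CAS

theorem result : ∃ (X D : Type) (_ : Countable X) (_ : Countable D) (π : X → X → D),
    (∃ K c e bar, IsCAS K π c e bar) ∧
      ∀ K c e bar, IsCAS K π c e bar → ¬ WeakT2 K π bar :=
  ⟨Y, Y, inferInstance, inferInstance, p, ⟨K, c, o, bar, isCAS⟩, fun _ _ _ _ h => not_T2 h⟩

end Pool.Agent.Results.MP_466bd8_al.No
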